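import Mathlib

/-!
# Representing AND by quadratic phases: basic lemmas (helper247, MP_a387ab_co)
-/

namespace Pool.Agent.H247R2.QAND

open MvPolynomial Finset

/-- The function `AND_n` with values in `{0,1}`. -/
def AND (n : ℕ) (x : Fin n → ZMod 2) : ℝ := if ∀ i, x i = 1 then 1 else 0

/-- `IsRep n m q c`: the polynomials `q i` have degree at most `2` and
`AND_n(x) = ∑ i, c i * (-1)^{q_i(x)}` for every `x`. -/
def IsRep (n m : ℕ) (q : Fin m → MvPolynomial (Fin n) (ZMod 2)) (c : Fin m → ℝ) : Prop :=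
  (∀ i, (q i).totalDegree ≤ 2) ∧
    ∀ x : Fin n → ZMod 2, AND n x = ∑ i, c i * (-1 : ℝ) ^ (eval x (q i)).val

/-- sign of a bit, as an integer -/
def sg (a : ZMod 2) : ℤ := (-1) ^ a.val

lemma sg_add (a b : ZMod 2) : sg (a + b) = sg a * sg b := by
  revert a b; unfold sg; decide

lemma sg_zero : sg 0 = 1 := by unfold sg; decide

lemma sg_one : sg 1 = -1 := by unfold sg; decide

lemma sg_sq (a : ZMod 2) : sg a * sg a = 1 := by
  revert a; unfold sg; decide

lemma sg_abs (a : ZMod 2) : |sg a| = 1 := by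
  revert a; unfold sg; decide

lemma sg_cast (a : ZMod 2) : ((sg a : ℤ) : ℝ) = (-1 : ℝ) ^ a.val := by
  unfold sg; push_cast; rfl

/-- third difference -/
def D3 {n : ℕ} (f : (Fin n → ZMod 2) → ZMod 2) (x y z : Fin n → ZMod 2) : ZMod 2 :=
  f (x + y + z) + f (x + y) + f (x + z) + f (y + z) + f x + f y + f z + f 0

lemma D3_monomial {n : ℕ} (d : Fin n →₀ ℕ) (hd : (d.sum fun _ e => e) ≤ 2)
    (x y z : Fin n → ZMod 2) :
    D3 (fun x => d.prod fun i e => x i ^ e) x y z = 0 := by
  have key : ∀ w : Fin n → ZMod 2, (d.prod fun i e => w i ^ e)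
      = ((Finsupp.toMultiset d).map w).prod := by
    intro w
    clear hd
    induction d using Finsupp.induction_linear with
    | zero => simp
    | add f g hf hg =>
      rw [Finsupp.prod_add_index' (fun _ => pow_zero _) (fun _ _ _ => pow_add _ _ _), hf, hg,
        map_add, Multiset.map_add, Multiset.prod_add]
    | single a b => simp [Finsupp.toMultiset_single, Multiset.map_nsmul, Multiset.prod_nsmul]
  have hc : Multiset.card (Finsupp.toMultiset d) ≤ 2 := by
    rw [Finsupp.card_toMultiset]; exact hd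
  unfold D3
  simp only [key]
  generalize Finsupp.toMultiset d = s at hc
  have h3 : Multiset.card s = 0 ∨ Multiset.card s = 1 ∨ Multiset.card s = 2 := by omega
  rcases h3 with h | h | h
  · rw [Multiset.card_eq_zero] at h
    subst h
    simp only [Multiset.map_zero, Multiset.prod_zero]
    decide
  · rw [Multiset.card_eq_one] at h
    obtain ⟨i, rfl⟩ := h
    simp only [Multiset.map_singleton, Multiset.prod_singleton, Pi.add_apply, Pi.zero_apply]
    generalize x i = a
    generalize y i = b
    generalize z i = c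
    revert a b c
    decide
  · rw [Multiset.card_eq_two] at h
    obtain ⟨i, j, rfl⟩ := h
    simp only [Multiset.insert_eq_cons, Multiset.map_cons, Multiset.map_singleton,
      Multiset.prod_cons, Multiset.prod_singleton, Pi.add_apply, Pi.zero_apply]
    generalize x i = a
    generalize y i = b
    generalize z i = c
    generalize x j = a'
    generalize y j = b'
    generalize z j = c'
    revert a b c a' b' c'
    decide

lemma D3_quad {n : ℕ} (q : MvPolynomial (Fin n) (ZMod 2)) (hq : q.totalDegree ≤ 2)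
    (x y z : Fin n → ZMod 2) : D3 (fun x => eval x q) x y z = 0 := by
  have h1 : ∀ w : Fin n → ZMod 2, eval w q
      = ∑ d ∈ q.support, coeff d q * (d.prod fun i e => w i ^ e) := by
    intro w
    rw [MvPolynomial.eval_eq]
    rfl
  unfold D3
  simp only [h1, ← Finset.sum_add_distrib, ← mul_add]
  apply Finset.sum_eq_zero
  intro d hd
  have h2 := D3_monomial d (le_trans (le_totalDegree hd) hq) x y z
  unfold D3 at h2
  rw [h2, mul_zero]

/-- The exponential sum of a function. -/
def S {n : ℕ} (f : (Fin n → ZMod 2) → ZMod 2) : ℤ := ∑ x, sg (f x)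

lemma sum_additive {n : ℕ} (A : (Fin n → ZMod 2) → ZMod 2)
    (hA : ∀ x y, A (x + y) = A x + A y) : (2 : ℤ) ^ n ∣ ∑ x, sg (A x) := by
  by_cases h : ∀ x, A x = 0
  · have : ∑ x, sg (A x) = (2 : ℤ) ^ n := by
      simp only [h, sg_zero, Finset.sum_const, Finset.card_univ, nsmul_eq_mul, mul_one]
      simp [ZMod.card]
    rw [this]
  · push Not at h
    obtain ⟨y, hy⟩ := h
    have hy1 : A y = 1 := by
      generalize A y = a at hy
      revert a; decide
    have h1 : ∑ x, sg (A x) = ∑ x, sg (A (x + y)) := by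
      refine (Equiv.sum_comp (Equiv.addRight y) (fun x => sg (A x))).symm
    have h2 : ∑ x, sg (A (x + y)) = - ∑ x, sg (A x) := by
      rw [← Finset.sum_neg_distrib]
      refine Finset.sum_congr rfl fun x _ => ?_
      rw [hA, hy1, sg_add, sg_one]; ring
    have h3 : ∑ x, sg (A x) = 0 := by
      have := h1.trans h2
      linarith
    rw [h3]
    exact dvd_zero _

lemma S_sq_dvd {n : ℕ} (f : (Fin n → ZMod 2) → ZMod 2) (hf : ∀ x y z, D3 f x y z = 0) :
    (2 : ℤ) ^ n ∣ S f ^ 2 := by
  have e1 : S f ^ 2 = ∑ h, ∑ x, sg (f x + f (x + h)) := by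
    have : S f ^ 2 = ∑ x, ∑ y, sg (f x) * sg (f y) := by
      unfold S
      rw [sq, Finset.sum_mul_sum]
    rw [this, Finset.sum_comm]
    have h2 : ∀ x : Fin n → ZMod 2, ∑ y, sg (f y) * sg (f x)
        = ∑ h, sg (f x + f (x + h)) := by
      intro x
      rw [← Equiv.sum_comp (Equiv.addLeft x) (fun y => sg (f y) * sg (f x))]
      refine Finset.sum_congr rfl fun h _ => ?_
      simp only [Equiv.coe_addLeft]
      rw [sg_add, mul_comm]
    have h3 : ∑ y, ∑ x, sg (f x) * sg (f y) = ∑ x, ∑ y, sg (f y) * sg (f x) := by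
      rw [Finset.sum_comm]
    rw [h3, Finset.sum_congr rfl fun x _ => h2 x, Finset.sum_comm]
  rw [e1]
  refine Finset.dvd_sum fun h _ => ?_
  have hA : ∀ x y : Fin n → ZMod 2,
      (f (x + y) + f (x + y + h) + f 0 + f h)
        = (f x + f (x + h) + f 0 + f h) + (f y + f (y + h) + f 0 + f h) := by
    intro x y
    have h3 := hf x y h
    unfold D3 at h3
    generalize f (x + y) = a at *
    generalize f (x + y + h) = b at *
    generalize f 0 = c at *
    generalize f h = d at *
    generalize f x = e at *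
    generalize f (x + h) = g at *
    generalize f y = k at *
    generalize f (y + h) = l at *
    revert a b c d e g k l
    decide
  have h4 := sum_additive (fun x => f x + f (x + h) + f 0 + f h) hA
  have h5 : ∑ x, sg (f x + f (x + h))
      = sg (f 0 + f h) * ∑ x, sg (f x + f (x + h) + f 0 + f h) := by
    rw [Finset.mul_sum]
    refine Finset.sum_congr rfl fun x _ => ?_
    rw [← sg_add]
    congr 1
    generalize f x = a
    generalize f (x + h) = b
    generalize f 0 = c
    generalize f h = d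
    revert a b c d
    decide
  rw [h5]
  exact Dvd.dvd.mul_left h4 _

lemma dvd_of_sq {n : ℕ} {s : ℤ} (h : (2 : ℤ) ^ n ∣ s ^ 2) : (2 : ℤ) ^ ((n + 1) / 2) ∣ s := by
  rcases Nat.even_or_odd' n with ⟨k, hk | hk⟩
  · have e : (n + 1) / 2 = k := by omega
    rw [e]
    rw [hk, mul_comm 2 k, pow_mul] at h
    exact (Int.pow_dvd_pow_iff (by norm_num)).1 h
  · have e : (n + 1) / 2 = k + 1 := by omega
    rw [e]
    have h1 : ((2 : ℤ) ^ k) ^ 2 ∣ s ^ 2 := by
      rw [← pow_mul]
      refine dvd_trans (pow_dvd_pow 2 ?_) h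
      omega
    have h2 : (2 : ℤ) ^ k ∣ s := (Int.pow_dvd_pow_iff (by norm_num)).1 h1
    obtain ⟨t, rfl⟩ := h2
    have h3 : (2 : ℤ) ∣ t ^ 2 := by
      have : (2 : ℤ) ^ n = (2 : ℤ) ^ (2 * k) * 2 := by rw [hk, pow_succ]
      rw [this, mul_pow, ← pow_mul, mul_comm k 2] at h
      exact (mul_dvd_mul_iff_left (by positivity)).1 h
    have h4 : (2 : ℤ) ∣ t := Int.prime_two.dvd_of_dvd_pow h3
    rw [pow_succ]
    exact mul_dvd_mul_left _ h4

lemma S_dvd {n : ℕ} (q : MvPolynomial (Fin n) (ZMod 2)) (hq : q.totalDegree ≤ 2) :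
    (2 : ℤ) ^ ((n + 1) / 2) ∣ ∑ x, sg (eval x q) :=
  dvd_of_sq (S_sq_dvd (fun x => eval x q) (fun x y z => D3_quad q hq x y z))

end Pool.Agent.H247R2.QAND
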