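import Mathlib
import Pool.Agent.H247R2.QAND.Base

/-!
# Coefficient trade-off for representations of AND by quadratic phases
-/

namespace Pool.Agent.H247R2.QAND

open MvPolynomial Finset

lemma z2_self (a : ZMod 2) : a + a = 0 := by revert a; decide

lemma z2_eq (a b : ZMod 2) (h : a + b = 0) : a = b := by revert a b; decide

/-- integral value of a representation -/
noncomputable def F {n m : ℕ} (q : Fin m → MvPolynomial (Fin n) (ZMod 2)) (a : Fin m → ℤ)
    (x : Fin n → ZMod 2) : ℤ := ∑ i, a i * sg (eval x (q i))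

lemma F_cast {n m : ℕ} (q : Fin m → MvPolynomial (Fin n) (ZMod 2)) (a : Fin m → ℤ) (t : ℝ)
    (h : IsRep n m q (fun i => t * a i)) (x : Fin n → ZMod 2) : AND n x = t * (F q a x : ℤ) := by
  rw [h.2 x]
  unfold F
  push_cast
  rw [Finset.mul_sum]
  refine Finset.sum_congr rfl fun i _ => ?_
  rw [sg_cast]
  ring

lemma F_facts {n m : ℕ} (q : Fin m → MvPolynomial (Fin n) (ZMod 2)) (a : Fin m → ℤ) (t : ℝ)
    (h : IsRep n m q (fun i => t * a i)) :
    F q a (fun _ => 1) ≠ 0 ∧ ∀ x, x ≠ (fun _ => 1) → F q a x = 0 := by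
  have h1 := F_cast q a t h (fun _ => 1)
  have h1' : AND n (fun _ => 1) = 1 := by unfold AND; simp
  rw [h1'] at h1
  have ht : t ≠ 0 := by rintro rfl; simp at h1
  refine ⟨?_, fun x hx => ?_⟩
  · intro h0; rw [h0] at h1; simp at h1
  · have h2 := F_cast q a t h x
    have h3 : AND n x = 0 := by
      unfold AND
      rw [if_neg]
      intro h4
      exact hx (funext h4)
    rw [h3] at h2
    have h5 : ((F q a x : ℤ) : ℝ) = 0 := by
      rcases mul_eq_zero.1 h2.symm with h6 | h6
      · exact absurd h6 ht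
      · exact h6
    exact_mod_cast h5

lemma W_dvd {n m : ℕ} (q : Fin m → MvPolynomial (Fin n) (ZMod 2)) (a : Fin m → ℤ)
    (hq : ∀ i, (q i).totalDegree ≤ 2) (h0 : ∀ x, x ≠ (fun _ => 1) → F q a x = 0) :
    (2 : ℤ) ^ ((n + 1) / 2) ∣ F q a (fun _ => 1) := by
  have h1 : ∑ x, F q a x = F q a (fun _ => 1) := by
    rw [Finset.sum_eq_single (fun _ => (1 : ZMod 2))]
    · intro x _ hx; exact h0 x hx
    · intro h; exact absurd (Finset.mem_univ _) h
  rw [← h1]
  unfold F
  rw [Finset.sum_comm]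
  refine Finset.dvd_sum fun i _ => ?_
  rw [← Finset.mul_sum]
  exact Dvd.dvd.mul_left (S_dvd (q i) (hq i)) _

lemma abs_sum_le {n m : ℕ} (q : Fin m → MvPolynomial (Fin n) (ZMod 2)) (a : Fin m → ℤ)
    (x : Fin n → ZMod 2) : |F q a x| ≤ ∑ i, |a i| := by
  unfold F
  refine (Finset.abs_sum_le_sum_abs _ _).trans (Finset.sum_le_sum fun i _ => ?_)
  rw [abs_mul, sg_abs, mul_one]

theorem trade {n m : ℕ} (q : Fin m → MvPolynomial (Fin n) (ZMod 2)) (a : Fin m → ℤ) (t : ℝ)
    (h : IsRep n m q (fun i => t * a i)) :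
    (2 : ℤ) ^ ((n + 1) / 2) ≤ ∑ i, |a i| ∧
      ∀ T : Finset (Fin m), 2 * T.card < n →
        (2 : ℤ) ^ ((n + 1) / 2) ≤ 2 * ∑ i ∈ Tᶜ, |a i| := by
  obtain ⟨hW, h0⟩ := F_facts q a t h
  have hd := W_dvd q a h.1 h0
  have hle : (2 : ℤ) ^ ((n + 1) / 2) ≤ |F q a (fun _ => 1)| :=
    Int.le_of_dvd (abs_pos.2 hW) ((dvd_abs _ _).2 hd)
  refine ⟨hle.trans (abs_sum_le q a _), fun T hT => ?_⟩
  -- Chevalley-Warning
  have hp : Fact (Nat.Prime 2) := ⟨Nat.prime_two⟩
  set p : Fin m → MvPolynomial (Fin n) (ZMod 2) :=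
    fun i => q i + C (eval (fun _ => (1 : ZMod 2)) (q i)) with hpdef
  have hdeg : ∀ i, (p i).totalDegree ≤ 2 := by
    intro i
    refine (totalDegree_add _ _).trans ?_
    rw [totalDegree_C]
    exact max_le (h.1 i) (by norm_num)
  have hsum : (∑ i ∈ T, (p i).totalDegree) < Fintype.card (Fin n) := by
    rw [Fintype.card_fin]
    refine lt_of_le_of_lt (Finset.sum_le_sum fun i _ => hdeg i) ?_
    rw [Finset.sum_const, smul_eq_mul, mul_comm]
    exact hT
  have hcw := char_dvd_card_solutions_of_sum_lt 2 hsum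
  have hone : ∀ i ∈ T, eval (fun _ => (1 : ZMod 2)) (p i) = 0 := by
    intro i _
    simp only [hpdef, map_add, eval_C]
    exact z2_self _
  have hex : ∃ y : {x : Fin n → ZMod 2 // ∀ i ∈ T, eval x (p i) = 0},
      y ≠ ⟨fun _ => 1, hone⟩ := by
    by_contra hcon
    push Not at hcon
    have h21 : 2 ∣ 1 := by
      rw [@Fintype.card_eq_nat_card _ (_)] at hcw
      have h22 : Nat.card {x : Fin n → ZMod 2 // ∀ i ∈ T, eval x (p i) = 0} = 1 := by
        rw [Nat.card_eq_one_iff_exists]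
        exact ⟨_, hcon⟩
      rw [h22] at hcw
      exact hcw
    exact absurd h21 (by norm_num)
  obtain ⟨⟨x, hx⟩, hne⟩ := hex
  have hx1 : x ≠ fun _ => 1 := fun e => hne (Subtype.ext e)
  have hxe : ∀ i ∈ T, eval x (q i) = eval (fun _ => (1 : ZMod 2)) (q i) := by
    intro i hi
    have := hx i hi
    simp only [hpdef, map_add, eval_C] at this
    exact z2_eq _ _ this
  have hF : F q a (fun _ => 1)
      = ∑ i ∈ Tᶜ, a i * (sg (eval (fun _ => (1 : ZMod 2)) (q i)) - sg (eval x (q i))) := by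
    have e1 : F q a (fun _ => 1) = F q a (fun _ => 1) - F q a x := by rw [h0 x hx1, sub_zero]
    rw [e1]
    unfold F
    rw [← Finset.sum_sub_distrib, ← Finset.sum_add_sum_compl T]
    rw [Finset.sum_eq_zero (s := T), zero_add]
    · refine Finset.sum_congr rfl fun i _ => ?_
      ring
    · intro i hi
      rw [hxe i hi, sub_self]
  refine hle.trans ?_
  rw [hF, Finset.mul_sum]
  refine (Finset.abs_sum_le_sum_abs _ _).trans (Finset.sum_le_sum fun i _ => ?_)
  rw [abs_mul, mul_comm]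
  refine mul_le_mul_of_nonneg_right ?_ (abs_nonneg _)
  refine (abs_sub _ _).trans ?_
  rw [sg_abs, sg_abs]
  norm_num

/-! ### The construction with equal coefficients -/

/-- the blocks -/
noncomputable def blk (n : ℕ) (j : Fin ((n + 1) / 2)) : MvPolynomial (Fin n) (ZMod 2) :=
  if h : 2 * (j : ℕ) + 1 < n then
    X ⟨2 * (j : ℕ), by omega⟩ * X ⟨2 * (j : ℕ) + 1, h⟩
  else X ⟨2 * (j : ℕ), by have := j.2; omega⟩

lemma blk_deg (n : ℕ) (j : Fin ((n + 1) / 2)) : (blk n j).totalDegree ≤ 2 := by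
  unfold blk
  split_ifs with h
  · refine (totalDegree_mul _ _).trans ?_
    rw [totalDegree_X, totalDegree_X]
  · rw [totalDegree_X]; norm_num

lemma blk_all (n : ℕ) (x : Fin n → ZMod 2) :
    (∀ j, eval x (blk n j) = 1) ↔ ∀ i, x i = 1 := by
  constructor
  · intro h i
    have hj : (i : ℕ) / 2 < (n + 1) / 2 := by have := i.2; omega
    have h1 := h ⟨(i : ℕ) / 2, hj⟩
    unfold blk at h1
    have mul1 : ∀ a b : ZMod 2, a * b = 1 → a = 1 ∧ b = 1 := by decide
    split_ifs at h1 with h2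
    · simp only [map_mul, eval_X] at h1
      obtain ⟨h3, h4⟩ := mul1 _ _ h1
      rcases Nat.mod_two_eq_zero_or_one (i : ℕ) with h5 | h5
      · have : (⟨2 * ((i : ℕ) / 2), by omega⟩ : Fin n) = i := by
          apply Fin.ext; simp only; omega
        rw [this] at h3; exact h3
      · have : (⟨2 * ((i : ℕ) / 2) + 1, h2⟩ : Fin n) = i := by
          apply Fin.ext; simp only; omega
        rw [this] at h4; exact h4
    · simp only [eval_X] at h1
      simp only at h2
      have : (⟨2 * ((i : ℕ) / 2), by have := i.2; omega⟩ : Fin n) = i := by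
        apply Fin.ext; simp only; have := i.2; omega
      rw [this] at h1; exact h1
  · intro h j
    unfold blk
    split_ifs with h2
    · simp [h]
    · simp [h]

lemma sg_sum {ι : Type*} (s : Finset ι) (b : ι → ZMod 2) :
    sg (∑ j ∈ s, b j) = ∏ j ∈ s, sg (b j) := by
  classical
  induction s using Finset.induction_on with
  | empty => simp [sg_zero]
  | insert a s ha ih => rw [Finset.sum_insert ha, Finset.prod_insert ha, sg_add, ih]

theorem construct (n : ℕ) : ∃ (q : Fin (2 ^ ((n + 1) / 2)) → MvPolynomial (Fin n) (ZMod 2))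
    (s : Fin (2 ^ ((n + 1) / 2)) → ℤ) (t : ℝ),
    (∀ i, |s i| = 1) ∧ IsRep n (2 ^ ((n + 1) / 2)) q (fun i => t * s i) := by
  classical
  set k := (n + 1) / 2 with hk
  have hcard : Fintype.card (Finset (Fin k)) = 2 ^ k := by
    rw [Fintype.card_finset, Fintype.card_fin]
  let e : Fin (2 ^ k) ≃ Finset (Fin k) := (Fintype.equivFinOfCardEq hcard).symm
  refine ⟨fun i => ∑ j ∈ e i, blk n j, fun i => (-1) ^ (e i).card, 1 / 2 ^ k, ?_, ?_, ?_⟩
  · intro i; simp [abs_pow]
  · intro i
    refine (totalDegree_finsetSum _ _).trans ?_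
    refine Finset.sup_le fun j _ => blk_deg n j
  · intro x
    have h1 : ∑ i : Fin (2 ^ k), ((-1 : ℤ) ^ (e i).card) * sg (eval x (∑ j ∈ e i, blk n j))
        = ∏ j : Fin k, (1 + - sg (eval x (blk n j))) := by
      rw [Finset.prod_one_add, Finset.powerset_univ]
      rw [← Equiv.sum_comp e (fun S => ∏ j ∈ S, - sg (eval x (blk n j)))]
      refine Finset.sum_congr rfl fun i _ => ?_
      rw [map_sum, sg_sum, Finset.prod_neg]
    have h2 : ∏ j : Fin k, (1 + - sg (eval x (blk n j)))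
        = if ∀ i, x i = 1 then 2 ^ k else 0 := by
      split_ifs with h
      · have h3 := (blk_all n x).2 h
        rw [Finset.prod_congr rfl (fun j _ => by rw [h3 j, sg_one])]
        simp
      · have h3 : ¬ ∀ j, eval x (blk n j) = 1 := fun h4 => h ((blk_all n x).1 h4)
        push Not at h3
        obtain ⟨j, hj⟩ := h3
        refine Finset.prod_eq_zero (Finset.mem_univ j) ?_
        have : eval x (blk n j) = 0 := by
          generalize eval x (blk n j) = b at hj
          revert b; decide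
        rw [this, sg_zero]; norm_num
    have h3 : ∑ i : Fin (2 ^ k), (1 / 2 ^ k : ℝ) * (((-1 : ℤ) ^ (e i).card : ℤ) : ℝ)
        * (-1 : ℝ) ^ (eval x (∑ j ∈ e i, blk n j)).val
        = (1 / 2 ^ k : ℝ) * ((∑ i : Fin (2 ^ k), ((-1 : ℤ) ^ (e i).card)
          * sg (eval x (∑ j ∈ e i, blk n j)) : ℤ) : ℝ) := by
      push_cast
      rw [Finset.mul_sum]
      refine Finset.sum_congr rfl fun i _ => ?_
      rw [sg_cast]; ring
    rw [h3, h1, h2]
    unfold AND
    split_ifs with h
    · push_cast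
      field_simp
    · simp

theorem least (n : ℕ) : IsLeast {m : ℕ | ∃ (q : Fin m → MvPolynomial (Fin n) (ZMod 2))
    (s : Fin m → ℤ) (t : ℝ), (∀ i, |s i| = 1) ∧ IsRep n m q (fun i => t * s i)}
    (2 ^ ((n + 1) / 2)) := by
  refine ⟨construct n, ?_⟩
  rintro m ⟨q, s, t, hs, h⟩
  have h1 := (trade q s t h).1
  rw [Finset.sum_congr rfl (fun i _ => hs i)] at h1
  simp only [Finset.sum_const, Finset.card_univ, Fintype.card_fin, nsmul_eq_mul, mul_one] at h1
  exact_mod_cast h1

end Pool.Agent.H247R2.QAND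

namespace Pool.Agent.H247R2.QAND

open MvPolynomial Finset

/-- The same phases always admit commensurable coefficients. -/
theorem commensurable {n m : ℕ} (q : Fin m → MvPolynomial (Fin n) (ZMod 2)) (c : Fin m → ℝ)
    (h : IsRep n m q c) : ∃ (a : Fin m → ℤ) (t : ℝ), IsRep n m q (fun i => t * a i) := by
  classical
  obtain ⟨g, hg⟩ := LinearMap.exists_leftInverse_of_injective (Algebra.linearMap ℚ ℝ)
    (LinearMap.ker_eq_bot.2 (by
      intro x y hxy
      simpa using hxy))
  have g1 : g 1 = 1 := by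
    have := LinearMap.congr_fun hg 1
    simpa using this
  have gint : ∀ (z : ℤ) (r : ℝ), g (r * (z : ℝ)) = (z : ℚ) * g r := by
    intro z r
    have h1 : r * (z : ℝ) = (z : ℚ) • r := by
      rw [Rat.smul_def]; push_cast; ring
    rw [h1, map_smul, smul_eq_mul]
  set c' : Fin m → ℚ := fun i => g (c i) with hc'
  have hrep : ∀ x : Fin n → ZMod 2,
      (if ∀ i, x i = 1 then (1 : ℚ) else 0) = ∑ i, (sg (eval x (q i)) : ℚ) * c' i := by
    intro x
    have h1 := congrArg g (h.2 x)
    rw [map_sum] at h1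
    have h2 : g (AND n x) = if ∀ i, x i = 1 then (1 : ℚ) else 0 := by
      unfold AND
      split_ifs
      · exact g1
      · exact map_zero g
    rw [← h2, h1]
    refine Finset.sum_congr rfl fun i _ => ?_
    rw [← sg_cast, gint]
  refine ⟨fun i => (c' i).num * ((∏ j ∈ univ.erase i, (c' j).den : ℕ) : ℤ),
    1 / ((∏ j, (c' j).den : ℕ) : ℝ), h.1, fun x => ?_⟩
  have hN : ((∏ j, (c' j).den : ℕ) : ℝ) ≠ 0 := by
    exact_mod_cast Finset.prod_ne_zero_iff.2 fun j _ => (c' j).den_ne_zero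
  have hi : ∀ i, (1 / ((∏ j, (c' j).den : ℕ) : ℝ))
      * (((c' i).num * ((∏ j ∈ univ.erase i, (c' j).den : ℕ) : ℤ) : ℤ) : ℝ) = ((c' i : ℚ) : ℝ) := by
    intro i
    have h1 : (∏ j, (c' j).den : ℕ) = (c' i).den * ∏ j ∈ univ.erase i, (c' j).den :=
      (Finset.mul_prod_erase univ _ (Finset.mem_univ i)).symm
    have h2 : ((c' i : ℚ) : ℝ) = ((c' i).num : ℝ) / ((c' i).den : ℝ) := by
      conv_lhs => rw [← Rat.num_div_den (c' i)]
      push_cast
      rfl
    have h3 : ((c' i).den : ℝ) ≠ 0 := by exact_mod_cast (c' i).den_ne_zero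
    have h4 : ((∏ j ∈ univ.erase i, (c' j).den : ℕ) : ℝ) ≠ 0 := by
      exact_mod_cast Finset.prod_ne_zero_iff.2 fun j _ => (c' j).den_ne_zero
    rw [h2, h1]
    push_cast at h4 ⊢
    field_simp
  have h5 : AND n x = (((if ∀ i, x i = 1 then (1 : ℚ) else 0) : ℚ) : ℝ) := by
    unfold AND
    split_ifs <;> simp
  rw [h5, hrep x]
  push_cast
  refine Finset.sum_congr rfl fun i _ => ?_
  have := hi i
  push_cast at this
  rw [this, ← sg_cast]
  ring

end Pool.Agent.H247R2.QAND
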