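import Mathlib
import Pool.Agent.H247R2.QAND.Cert

/-!
# The upper bound for the number of quadratic phases
-/

namespace Pool.Agent.H247R2.QAND

open MvPolynomial Finset

/-- polynomial of a list of monomials, in the variables `X_i + 1` -/
noncomputable def pol (L : List (Nat × Nat)) : MvPolynomial (Fin 10) (ZMod 2) :=
  (L.map fun p => (X (Fin.ofNat 10 p.1) + 1) * (X (Fin.ofNat 10 p.2) + 1)).sum

lemma pol_deg (L : List (Nat × Nat)) : (pol L).totalDegree ≤ 2 := by
  induction L with
  | nil => simp [pol]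
  | cons p L ih =>
    unfold pol at *
    rw [List.map_cons, List.sum_cons]
    refine (totalDegree_add _ _).trans (max_le ?_ ih)
    refine (totalDegree_mul _ _).trans ?_
    have h : ∀ i : Fin 10, ((X i : MvPolynomial (Fin 10) (ZMod 2)) + 1).totalDegree ≤ 1 := by
      intro i
      refine (totalDegree_add _ _).trans ?_
      rw [totalDegree_X, totalDegree_one]
      norm_num
    have h1 := h (Fin.ofNat 10 p.1)
    have h2 := h (Fin.ofNat 10 p.2)
    omega

lemma goodT_spec (N : Nat) (h : goodT N = true) (t : Nat) (ht : t < N) (a : Nat) (ha : a < 10) :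
    (TT.getD a 0).testBit t = t.testBit a := by
  induction N with
  | zero => omega
  | succ N ih =>
    unfold goodT at h
    rw [Bool.and_eq_true] at h
    rcases Nat.lt_succ_iff_lt_or_eq.1 ht with h1 | h1
    · exact ih h.2 h1
    · subst h1
      have h2 := List.all_eq_true.1 h.1 a (List.mem_range.2 ha)
      simpa using h2

lemma good_spec (tb : List (Nat × Nat)) (N : Nat) (h : good tb N = true) (t : Nat) (ht : t < N) :
    chk tb t = if t = 0 then 0 else 16 := by
  induction N with
  | zero => omega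
  | succ N ih =>
    unfold good at h
    rw [Bool.and_eq_true] at h
    rcases Nat.lt_succ_iff_lt_or_eq.1 ht with h1 | h1
    · exact ih h.2 h1
    · subst h1
      simpa using h.1

/-- code of a point -/
def cod (x : Fin 10 → ZMod 2) : Nat := Nat.ofBits fun a => decide (x a = 0)

lemma cod_lt (x : Fin 10 → ZMod 2) : cod x < 1024 := Nat.ofBits_lt_two_pow _

lemma cod_bit (x : Fin 10 → ZMod 2) (a : Nat) (ha : a < 10) :
    (cod x).testBit a = decide (x (Fin.ofNat 10 a) = 0) := by
  unfold cod
  rw [Nat.testBit_ofBits_lt _ _ ha]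
  have : (⟨a, ha⟩ : Fin 10) = Fin.ofNat 10 a := by
    apply Fin.ext; simp [Fin.ofNat, Nat.mod_eq_of_lt ha]
  rw [this]

lemma b2 (a b c : ZMod 2) (u v w : Bool) (h1 : u = decide (a = 0)) (h2 : v = decide (b = 0))
    (h3 : c = if w then 1 else 0) :
    (a + 1) * (b + 1) + c = if ((u && v) ^^ w) then 1 else 0 := by
  subst h1 h2 h3
  revert a b w
  decide

lemma eval_pol (x : Fin 10 → ZMod 2) (L : List (Nat × Nat))
    (hL : (L.all fun p => decide (p.1 < 10) && decide (p.2 < 10)) = true) :
    eval x (pol L) = if (tab L).testBit (cod x) then 1 else 0 := by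
  induction L with
  | nil => simp [pol, tab]
  | cons p L ih =>
    rw [List.all_cons, Bool.and_eq_true, Bool.and_eq_true] at hL
    have h1 : p.1 < 10 := by simpa using hL.1.1
    have h2 : p.2 < 10 := by simpa using hL.1.2
    have e1 : pol (p :: L) = (X (Fin.ofNat 10 p.1) + 1) * (X (Fin.ofNat 10 p.2) + 1) + pol L := by
      unfold pol; rw [List.map_cons, List.sum_cons]
    have e2 : tab (p :: L) = (TT.getD p.1 0 &&& TT.getD p.2 0) ^^^ tab L := rfl
    rw [e1, e2, map_add, map_mul, map_add, map_add, eval_X, eval_X, map_one, Nat.testBit_xor,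
      Nat.testBit_and, goodT_spec 1024 goodT_ok _ (cod_lt x) _ h1,
      goodT_spec 1024 goodT_ok _ (cod_lt x) _ h2]
    exact b2 _ _ _ _ _ _ (cod_bit x _ h1) (cod_bit x _ h2) (ih hL.2)

lemma sum_list (x : Fin 10 → ZMod 2) (M : List (Nat × List (Nat × Nat)))
    (hM : (M.all fun e => e.2.all fun p => decide (p.1 < 10) && decide (p.2 < 10)) = true) :
    (M.map fun e => (e.1 : ℤ) * sg (eval x (pol e.2))).sum
      = ((M.map Prod.fst).sum : ℕ) - 2 * (chk (M.map fun e => (e.1, tab e.2)) (cod x) : ℤ) := by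
  induction M with
  | nil => simp [chk]
  | cons e M ih =>
    rw [List.all_cons, Bool.and_eq_true] at hM
    have h1 := eval_pol x e.2 hM.1
    have e2 : chk ((e :: M).map fun e => (e.1, tab e.2)) (cod x)
        = (if (tab e.2).testBit (cod x) then e.1 else 0)
          + chk (M.map fun e => (e.1, tab e.2)) (cod x) := rfl
    rw [List.map_cons, List.sum_cons, ih hM.2, e2, List.map_cons, List.sum_cons, h1]
    split_ifs
    · rw [sg_one]; push_cast; ring
    · rw [sg_zero]; push_cast; ring

lemma cod_zero (x : Fin 10 → ZMod 2) : cod x = 0 ↔ ∀ i, x i = 1 := by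
  constructor
  · intro h i
    have h1 := cod_bit x i i.2
    rw [h, Nat.zero_testBit] at h1
    have h2 : Fin.ofNat 10 (i : ℕ) = i := by
      apply Fin.ext; simp [Fin.ofNat]
    rw [h2] at h1
    have h3 : ∀ b : ZMod 2, false = decide (b = 0) → b = 1 := by decide
    exact h3 _ h1
  · intro h
    apply Nat.eq_of_testBit_eq
    intro a
    rw [Nat.zero_testBit]
    by_cases ha : a < 10
    · rw [cod_bit x a ha, h]; decide
    · apply Nat.testBit_lt_two_pow
      refine lt_of_lt_of_le (cod_lt x) ?_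
      calc 1024 = 2 ^ 10 := by norm_num
        _ ≤ 2 ^ a := Nat.pow_le_pow_right (by norm_num) (by omega)

/-- there is a representation with `m` terms -/
def RepN (n m : ℕ) : Prop :=
  ∃ (q : Fin m → MvPolynomial (Fin n) (ZMod 2)) (c : Fin m → ℝ), IsRep n m q c

theorem rep_ten : RepN 10 24 := by
  rw [← len_ok]
  refine ⟨fun i => pol (LL[i.1]).2, fun i => ((LL[i.1]).1 : ℝ) / 32, fun i => pol_deg _,
    fun x => ?_⟩
  have h1 := sum_list x LL idx_ok
  rw [sum_ok, show (LL.map fun e => (e.1, tab e.2)) = tabs from rfl,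
    good_spec tabs 1024 good_ok _ (cod_lt x)] at h1
  have h2 : ∑ i : Fin LL.length, ((LL[i.1]).1 : ℝ) / 32 * (-1 : ℝ) ^ (eval x (pol (LL[i.1]).2)).val
      = (1 / 32 : ℝ) * ((∑ i : Fin LL.length, ((LL[i.1]).1 : ℤ) * sg (eval x (pol (LL[i.1]).2)) : ℤ) : ℝ) := by
    push_cast
    rw [Finset.mul_sum]
    refine Finset.sum_congr rfl fun i _ => ?_
    rw [sg_cast]
    ring
  rw [h2, Fin.sum_univ_fun_getElem LL (fun e => (e.1 : ℤ) * sg (eval x (pol e.2))), h1]
  unfold AND
  by_cases h : ∀ i, x i = 1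
  · rw [if_pos h, if_pos ((cod_zero x).2 h)]; norm_num
  · rw [if_neg h, if_neg (fun h3 => h ((cod_zero x).1 h3))]; norm_num

theorem rep_mul {a b m k : ℕ} (h1 : RepN a m) (h2 : RepN b k) : RepN (a + b) (m * k) := by
  obtain ⟨q, c, hq, hc⟩ := h1
  obtain ⟨r, d, hr, hd⟩ := h2
  refine ⟨fun i => rename (Fin.castAdd b) (q (finProdFinEquiv.symm i).1)
      + rename (Fin.natAdd a) (r (finProdFinEquiv.symm i).2),
    fun i => c (finProdFinEquiv.symm i).1 * d (finProdFinEquiv.symm i).2, fun i => ?_, fun x => ?_⟩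
  · refine (totalDegree_add _ _).trans (max_le ?_ ?_)
    · exact (totalDegree_rename_le _ _).trans (hq _)
    · exact (totalDegree_rename_le _ _).trans (hr _)
  · have e1 : AND (a + b) x = AND a (x ∘ Fin.castAdd b) * AND b (x ∘ Fin.natAdd a) := by
      unfold AND
      have : (∀ i, x i = 1) ↔ (∀ i, (x ∘ Fin.castAdd b) i = 1) ∧ (∀ i, (x ∘ Fin.natAdd a) i = 1) := by
        constructor
        · intro h; exact ⟨fun i => h _, fun i => h _⟩
        · rintro ⟨h1, h2⟩ i
          refine Fin.addCases (fun j => h1 j) (fun j => h2 j) i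
      by_cases h1 : ∀ i, (x ∘ Fin.castAdd b) i = 1 <;> by_cases h2 : ∀ i, (x ∘ Fin.natAdd a) i = 1
      · rw [if_pos h1, if_pos h2, if_pos (this.2 ⟨h1, h2⟩)]; norm_num
      · rw [if_neg h2, if_neg (fun h => h2 (this.1 h).2)]; norm_num
      · rw [if_neg h1, if_neg (fun h => h1 (this.1 h).1)]; norm_num
      · rw [if_neg h1, if_neg (fun h => h1 (this.1 h).1)]; norm_num
    rw [e1, hc, hd, Finset.sum_mul_sum]
    rw [← Equiv.sum_comp finProdFinEquiv, Fintype.sum_prod_type]
    refine Finset.sum_congr rfl fun i _ => Finset.sum_congr rfl fun j _ => ?_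
    simp only [Equiv.symm_apply_apply, map_add, eval_rename]
    rw [← sg_cast, ← sg_cast, ← sg_cast, sg_add]
    push_cast
    ring

theorem rep_small (n : ℕ) : RepN n (2 ^ ((n + 1) / 2)) := by
  obtain ⟨q, s, t, _, h⟩ := construct n
  exact ⟨q, _, h⟩

theorem rep_pow (k : ℕ) : RepN (10 * k) (24 ^ k) := by
  induction k with
  | zero => simpa using rep_small 0
  | succ k ih =>
    have := rep_mul ih rep_ten
    rw [pow_succ]
    exact this

theorem rep_all (n : ℕ) : RepN n (24 ^ (n / 10) * 2 ^ ((n % 10 + 1) / 2)) := by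
  have := rep_mul (rep_pow (n / 10)) (rep_small (n % 10))
  rwa [Nat.div_add_mod] at this

end Pool.Agent.H247R2.QAND
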